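import Pool.Agent.Lib.MP_c167ed_anC.MainD
import Pool.Agent.Lib.MP_c167ed_anC.StatementC

/-!
# MP_c167ed_an: lower bound for the blow-up rate of axisymmetric Euler flows without swirl, `d ≥ 7`

`d = m + 1`. If the initial vorticity decays along the axis (`AxisDecay`, for instance if it has compact
support) then for every finite `T`: either the vorticity stays bounded on `[0,T) × ℝ^d` (no singularity
at `T`), or at every time `t` close to `T` there is a point at distance at least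
`c (T-t)^{-4/(d-6)}` from the axis where the vorticity is at least `c (T-t)^{-4(d-2)/(d-6)}`.
-/

open MeasureTheory Set
open scoped ENNReal

namespace Pool.Agent.Results.MP_c167ed_an.BlowupRate

open Pool.Agent.Lib.MP_c167ed_an Pool.Agent.Lib.MP_c167ed_anC

theorem result (m : ℕ) (hm : 6 ≤ m) (T : ℝ) (hT : 0 < T)
    (u : ℝ → V m → V m) (p : ℝ → V m → ℝ) (h : IsEulerFlow T u p)
    (h0 : AxisymNoSwirl (u 0)) (hd : AxisDecay (u 0)) :
    ((∃ C : ℝ, ∀ t ∈ Ico 0 T, ∀ x, curl (u t) x ≤ C) ∧ curlIntegral T u < ⊤) ∨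
    ∃ c > 0, ∃ s < T, ∀ t ∈ Ico 0 T, s ≤ t → ∃ x : V m,
      c * (T - t) ^ (-(4 / ((m : ℝ) - 5))) ≤ rad x ∧
      c * (T - t) ^ (-(4 * ((m : ℝ) - 1) / ((m : ℝ) - 5))) ≤ curl (u t) x := by
  by_cases hb : ∃ C : ℝ, ∀ t ∈ Ico 0 T, ∀ x, curl (u t) x ≤ C
  · obtain ⟨C, hC⟩ := hb
    exact Or.inl ⟨⟨C, hC⟩, lintegral_curl_lt_top hC⟩
  · exact Or.inr (main_rateD hm hT h.euler h0 hd hb)

end Pool.Agent.Results.MP_c167ed_an.BlowupRate
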