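import Pool.Agent.Lib.MP_c167ed_anB.MainB
import Pool.Agent.Lib.MP_c167ed_an.Statement

/-!
# MP_c167ed_an: no singularities of axisymmetric Euler flows without swirl in `ℝ⁴`, `ℝ⁵`, `ℝ⁶`

`d = m + 1`. `IsEulerFlow T u p` : `u` is a smooth solution of the Euler equations on
`[0,T) × ℝ^d` with pressure `p`, in the class `L^∞_loc([0,T); H^k)` for all `k`.
For `d = 4, 5, 6` and every finite `T`, if `u(·,0)` is axisymmetric without swirl then the vorticity
stays bounded on `[0,T) × ℝ^d`; in particular `∫_0^T ‖∇ × u‖_∞ dt < ∞`: no singularity at `T`.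
-/

open MeasureTheory Set
open scoped ENNReal

namespace Pool.Agent.Results.MP_c167ed_an.DimFourFiveSix

open Pool.Agent.Lib.MP_c167ed_an

theorem result (m : ℕ) (hm3 : 3 ≤ m) (hm5 : m ≤ 5) (T : ℝ) (hT : 0 < T)
    (u : ℝ → V m → V m) (p : ℝ → V m → ℝ) (h : IsEulerFlow T u p)
    (h0 : AxisymNoSwirl (u 0)) :
    (∃ C : ℝ, ∀ t ∈ Ico 0 T, ∀ x, curl (u t) x ≤ C) ∧ curlIntegral T u < ⊤ := by
  obtain ⟨C, hC⟩ := Pool.Agent.Lib.MP_c167ed_anB.main_all hm3 hm5 hT h.euler h0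
  exact ⟨⟨C, hC⟩, lintegral_curl_lt_top hC⟩

end Pool.Agent.Results.MP_c167ed_an.DimFourFiveSix
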