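import Pool.Agent.Lib.MP_c167ed_anC.MainD
import Pool.Agent.Lib.MP_c167ed_anC.StatementC
import Pool.Agent.Lib.MP_c167ed_an.StatementSigned

/-!
# MP_c167ed_an: in every dimension `d ≥ 4` axisymmetric Euler flows without swirl with one-signed
initial vorticity of finite impulse `∫ |x'| |ω₀| dx` which decays along the axis (`AxisDecay`; for
instance compactly supported) have no singularities. No vanishing condition at the axis.
-/

open MeasureTheory Set
open scoped ENNReal

namespace Pool.Agent.Results.MP_c167ed_an.OneSigned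

open Pool.Agent.Lib.MP_c167ed_an Pool.Agent.Lib.MP_c167ed_anC

theorem result (m : ℕ) (hm : 3 ≤ m) (T : ℝ) (hT : 0 < T)
    (u : ℝ → V m → V m) (p : ℝ → V m → ℝ) (h : IsEulerFlow T u p)
    (h0 : AxisymNoSwirl (u 0)) (hd : AxisDecay (u 0)) (hP : FinImpulse (u 0))
    (hs : OneSigned (u 0)) :
    (∃ C : ℝ, ∀ t ∈ Ico 0 T, ∀ x, curl (u t) x ≤ C) ∧ curlIntegral T u < ⊤ := by
  obtain ⟨C, hC⟩ := main_signedD hm hT h.euler h0 hd hP hs
  exact ⟨⟨C, hC⟩, lintegral_curl_lt_top hC⟩

end Pool.Agent.Results.MP_c167ed_an.OneSigned
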