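import Pool.Agent.Lib.MP_c167ed_anC.MainD
import Pool.Agent.Lib.MP_c167ed_anC.StatementC

/-!
# MP_c167ed_an: in every dimension `d ≥ 4`, if the initial vorticity decays along the axis (for instance
if it has compact support), `|ω(t,x)| ≤ C (r + r^{d-2})` up to a possible blow-up time; in particular
the vorticity stays bounded at every finite distance from the axis.
-/

open MeasureTheory Set
open scoped ENNReal

namespace Pool.Agent.Results.MP_c167ed_an.RelativeBound

open Pool.Agent.Lib.MP_c167ed_an Pool.Agent.Lib.MP_c167ed_anC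

theorem result (m : ℕ) (hm : 3 ≤ m) (T : ℝ) (hT : 0 < T)
    (u : ℝ → V m → V m) (p : ℝ → V m → ℝ) (h : IsEulerFlow T u p)
    (h0 : AxisymNoSwirl (u 0)) (hd : AxisDecay (u 0)) :
    ∃ C : ℝ, ∀ t ∈ Ico 0 T, ∀ x, curl (u t) x ≤ C * (rad x + rad x ^ (m - 1)) :=
  main_relD hm hT h.euler h0 hd

end Pool.Agent.Results.MP_c167ed_an.RelativeBound
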